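import Pool.Agent.H28.Honey.Final

set_option autoImplicit false

namespace Pool.Agent.Results.MP_8afc7b_co.RadiusBound

open Pool.Agent.H28.Honey

/-- Every honeycomb array has radius at most `41`, i.e. at most `83` dots. -/
theorem result (r : ℕ) (D : Finset (ℤ × ℤ)) (h : IsHoneycombArray r D) : r ≤ 41 :=
  Nat.le_of_lt_succ (radius_lt h)

end Pool.Agent.Results.MP_8afc7b_co.RadiusBound
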